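import Mathlib

set_option autoImplicit false
open MeasureTheory Real Filter Topology
open scoped ContDiff

/-!
Interface for the proof of the centred L_p Brunn-Minkowski inequality, all dimensions n >= 2,
all p in [1 - 1/(6 n^4), 1).  The proofs are in BLUEPRINT.md.
-/

namespace Pool.Agent.Work.LPBM

/-- Euclidean space -/
abbrev E (n : ℕ) : Type := EuclideanSpace ℝ (Fin n)

/-- derivative in direction `e_j` -/
noncomputable def pd {n : ℕ} (j : Fin n) (f : E n → ℝ) (x : E n) : ℝ :=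
  fderiv ℝ f x (EuclideanSpace.single j (1 : ℝ))

/-- `L u = Laplacian u - grad V . grad u` -/
noncomputable def Lop {n : ℕ} (V u : E n → ℝ) (x : E n) : ℝ :=
  ∑ j, (pd j (pd j u) x - pd j V x * pd j u x)

/-- `|D^2 u|^2` -/
noncomputable def hs {n : ℕ} (u : E n → ℝ) (x : E n) : ℝ := ∑ i, ∑ j, (pd i (pd j u) x) ^ 2

/-- `D^2 V (grad u, grad u)` -/
noncomputable def hq {n : ℕ} (V u : E n → ℝ) (x : E n) : ℝ :=
  ∑ i, ∑ j, pd i (pd j V) x * pd i u x * pd j u x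

/-- the weight `exp (-V)` -/
noncomputable def wt {n : ℕ} (V : E n → ℝ) (x : E n) : ℝ := exp (-V x)

/-- the mean of `Y` -/
noncomputable def mean {n : ℕ} (V Y : E n → ℝ) : ℝ := (∫ x, Y x * wt V x) / ∫ x, wt V x

/-- test functions -/
def Test {n : ℕ} (u : E n → ℝ) : Prop := ContDiff ℝ ∞ u ∧ HasCompactSupport u

/-! ### Part A: analysis for a general potential -/

/-- IBP: integration by parts -/
def Stmt_IBP : Prop :=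
  ∀ (n : ℕ) (V f g : E n → ℝ), ContDiff ℝ 1 V → ContDiff ℝ 1 f → ContDiff ℝ 2 g → HasCompactSupport g →
    ∫ x, f x * Lop V g x * wt V x = - ∫ x, (∑ j, pd j f x * pd j g x) * wt V x

/-- BOC: Bochner formula -/
def Stmt_BOC : Prop :=
  ∀ (n : ℕ) (V u : E n → ℝ), ContDiff ℝ 2 V → Test u →
    ∫ x, (Lop V u x) ^ 2 * wt V x = ∫ x, (hs u x + hq V u x) * wt V x

/-- MOA: even mollifiers and `L^2_loc` convergence -/
def Stmt_MOA : Prop :=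
  ∀ n : ℕ, ∃ η : ℕ → E n → ℝ, (∀ m, ContDiff ℝ ∞ (η m)) ∧ (∀ m x, 0 ≤ η m x) ∧
    (∀ m x, η m (-x) = η m x) ∧ (∀ m, ∫ x, η m x = 1) ∧
    (∀ m, Function.support (η m) ⊆ Metric.ball (0 : E n) (1 / ((m : ℝ) + 1))) ∧
    ∀ g : E n → ℝ, AEStronglyMeasurable g volume →
      (∀ ρ : ℝ, IntegrableOn (fun x => (g x) ^ 2) (Metric.ball (0 : E n) ρ) volume) →
      ∀ ρ : ℝ, Tendsto (fun m => ∫ x in Metric.ball (0 : E n) ρ, ((∫ y, η m (x - y) * g y) - g x) ^ 2)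
        atTop (𝓝 0)

/-- MOL: a weak solution is approximated by `C^1` solutions of a perturbed equation -/
def Stmt_MOL : Prop :=
  ∀ (n : ℕ) (V : E n → ℝ), ContDiff ℝ 2 V → ∀ ψ : E n → ℝ, AEStronglyMeasurable ψ volume →
    Integrable (fun x => (ψ x) ^ 2 * wt V x) →
    (∀ u : E n → ℝ, Test u → ∫ x, ψ x * Lop V u x * wt V x = 0) →
    ∃ (g : ℕ → E n → ℝ) (r : ℕ → Fin n → E n → ℝ),
      (∀ m, ContDiff ℝ 1 (g m)) ∧ (∀ m j, Continuous (r m j)) ∧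
      (∀ m, ∀ w : E n → ℝ, ContDiff ℝ 1 w → HasCompactSupport w →
        (∫ x, (∑ j, pd j (g m) x * pd j w x) * wt V x) + (∫ x, ∑ j, r m j x * pd j w x) = 0) ∧
      (∀ ρ : ℝ, Tendsto (fun m => ∫ x in Metric.ball (0 : E n) ρ, (g m x - ψ x) ^ 2) atTop (𝓝 0)) ∧
      (∀ ρ : ℝ, Tendsto (fun m => ∫ x in Metric.ball (0 : E n) ρ, ∑ j, (r m j x) ^ 2) atTop (𝓝 0))

/-- ENE: energy estimate; the gradients tend to zero in `L^2_loc` -/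
def Stmt_ENE : Prop :=
  ∀ (n : ℕ) (V : E n → ℝ), ContDiff ℝ 2 V → ∀ ψ : E n → ℝ, AEStronglyMeasurable ψ volume →
    Integrable (fun x => (ψ x) ^ 2 * wt V x) →
    ∀ (g : ℕ → E n → ℝ) (r : ℕ → Fin n → E n → ℝ),
      (∀ m, ContDiff ℝ 1 (g m)) → (∀ m j, Continuous (r m j)) →
      (∀ m, ∀ w : E n → ℝ, ContDiff ℝ 1 w → HasCompactSupport w →
        (∫ x, (∑ j, pd j (g m) x * pd j w x) * wt V x) + (∫ x, ∑ j, r m j x * pd j w x) = 0) →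
      (∀ ρ : ℝ, Tendsto (fun m => ∫ x in Metric.ball (0 : E n) ρ, (g m x - ψ x) ^ 2) atTop (𝓝 0)) →
      (∀ ρ : ℝ, Tendsto (fun m => ∫ x in Metric.ball (0 : E n) ρ, ∑ j, (r m j x) ^ 2) atTop (𝓝 0)) →
      ∀ ρ : ℝ, Tendsto (fun m => ∫ x in Metric.ball (0 : E n) ρ, ∑ j, (pd j (g m) x) ^ 2) atTop (𝓝 0)

/-- TRA: an `L^2_loc` limit of `C^1` functions with gradients tending to zero is constant -/
def Stmt_TRA : Prop :=
  ∀ (n : ℕ) (ψ : E n → ℝ), AEStronglyMeasurable ψ volume →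
    (∀ ρ : ℝ, IntegrableOn (fun x => (ψ x) ^ 2) (Metric.ball (0 : E n) ρ) volume) →
    ∀ (g : ℕ → E n → ℝ), (∀ m, ContDiff ℝ 1 (g m)) →
      (∀ ρ : ℝ, Tendsto (fun m => ∫ x in Metric.ball (0 : E n) ρ, (g m x - ψ x) ^ 2) atTop (𝓝 0)) →
      (∀ ρ : ℝ, Tendsto (fun m => ∫ x in Metric.ball (0 : E n) ρ, ∑ j, (pd j (g m) x) ^ 2) atTop (𝓝 0)) →
      ∃ c : ℝ, ψ =ᵐ[volume] fun _ => c

/-- DEN: density of the range of `L` on test functions in the mean zero functions -/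
def Stmt_DEN : Prop :=
  ∀ (n : ℕ) (V : E n → ℝ), ContDiff ℝ 2 V → Integrable (wt V) →
    ∀ Y : E n → ℝ, AEStronglyMeasurable Y volume → Integrable (fun x => (Y x) ^ 2 * wt V x) →
      ∫ x, Y x * wt V x = 0 →
      ∀ ε : ℝ, 0 < ε → ∃ u : E n → ℝ, Test u ∧ ∫ x, (Lop V u x + Y x) ^ 2 * wt V x ≤ ε

/-- HSJ: Helffer-Sjostrand type inequality -/
def Stmt_HSJ : Prop :=
  ∀ (n : ℕ) (V : E n → ℝ), ContDiff ℝ 2 V → Integrable (wt V) →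
    (∀ j : Fin n, Integrable (fun x : E n => (x j) ^ 2 * wt V x)) →
    ∀ Y : E n → ℝ, ContDiff ℝ 1 Y → Integrable (fun x => (Y x) ^ 2 * wt V x) →
    ∀ ε : ℝ, 0 < ε → ∃ u : E n → ℝ, Test u ∧
      (∀ j : Fin n, |(∫ x, pd j u x * wt V x) - (∫ x : E n, x j * (Y x - mean V Y) * wt V x)| ≤ ε) ∧
      ∫ x, (Y x - mean V Y) ^ 2 * wt V x
        ≤ ε + ∫ x, (2 * (∑ j, pd j Y x * pd j u x) - hs u x - hq V u x) * wt V x

/-- BLP: Brascamp-Lieb-Poincare inequality -/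
def Stmt_BLP : Prop :=
  ∀ (n : ℕ) (V : E n → ℝ) (κ : ℝ), 0 < κ → ContDiff ℝ 2 V → Integrable (wt V) →
    (∀ (x : E n) (v : Fin n → ℝ), κ * ∑ j, (v j) ^ 2 ≤ ∑ i, ∑ j, pd i (pd j V) x * v i * v j) →
    ∀ φ : E n → ℝ, Test φ →
      κ * ∫ x, (φ x - mean V φ) ^ 2 * wt V x ≤ ∫ x, (∑ j, (pd j φ x) ^ 2) * wt V x

/-! ### Part B: soft polytopes -/

/-- the wall function and its two derivatives -/
noncomputable def G0 (s : ℝ) : ℝ := if s ≤ 0 then 0 else exp s - 1 - s - s ^ 2 / 2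
noncomputable def G1 (s : ℝ) : ℝ := if s ≤ 0 then 0 else exp s - 1 - s
noncomputable def G2 (s : ℝ) : ℝ := if s ≤ 0 then 0 else exp s - 1

/-- the polytope -/
def Pset {n : ℕ} {ι : Type} (θ : ι → E n) (h : ι → ℝ) : Set (E n) := {x | ∀ i, inner ℝ (θ i) x ≤ h i}

/-- the walls -/
noncomputable def Upot {n : ℕ} {ι : Type} [Fintype ι] (k : ℝ) (θ : ι → E n) (h : ι → ℝ) (x : E n) : ℝ :=
  ∑ i, G0 (k * (inner ℝ (θ i) x - h i))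

/-- the soft potential with tilt `l` -/
noncomputable def Vpot {n : ℕ} {ι : Type} [Fintype ι] (k : ℝ) (θ : ι → E n) (h : ι → ℝ) (l : E n)
    (x : E n) : ℝ :=
  Upot k θ h x - inner ℝ l x

/-- the vectors `θ i` span `E n` positively -/
def Span {n : ℕ} {ι : Type} (θ : ι → E n) : Prop := ∃ c : ℝ, 0 < c ∧ ∀ x : E n, ∃ i, c * ‖x‖ ≤ inner ℝ (θ i) x

/-- the weight of a soft polytope -/
noncomputable def W {n : ℕ} {ι : Type} [Fintype ι] (k : ℝ) (θ : ι → E n) (h : ι → ℝ) (l : E n)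
    (x : E n) : ℝ :=
  wt (Vpot k θ h l) x

/-- `SW0`: the wall function -/
def Stmt_SW0 : Prop :=
  (∀ s : ℝ, HasDerivAt G0 (G1 s) s) ∧ (∀ s : ℝ, HasDerivAt G1 (G2 s) s) ∧ Continuous G2 ∧
  ContDiff ℝ 2 G0 ∧ ContDiff ℝ 1 G1 ∧ (∀ s, 0 ≤ G0 s) ∧ (∀ s, 0 ≤ G1 s) ∧ (∀ s, G1 s ≤ G2 s) ∧
  (∀ s, 0 ≤ s → s ^ 2 / 2 ≤ G1 s) ∧ (∀ s, 0 ≤ s → s ^ 3 / 6 ≤ G0 s) ∧ ConvexOn ℝ Set.univ G0 ∧
  Monotone G0 ∧ Monotone G1 ∧ Monotone G2 ∧
  (∀ m : ℕ, ∀ δ : ℝ, 0 < δ → ∃ C : ℝ, ∀ s, (1 + G2 s) ^ m * exp (-(δ * G0 s)) ≤ C)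

/-- `INT`: integrability with respect to soft polytope weights, locally uniformly in all parameters.
Every function of exponential growth in `x` and polynomial growth in `G2 (k s_i)` is integrable, with a
common majorant for `k, h, l` near given values. -/
def Stmt_INT : Prop :=
  ∀ (n : ℕ) (ι : Type) [Fintype ι] (θ : ι → E n), Span θ → ∀ (k₀ k₁ H A : ℝ), 0 < k₀ → ∀ m : ℕ,
    ∃ B : E n → ℝ, Integrable B ∧
      ∀ (k : ℝ) (h : ι → ℝ) (l : E n), k₀ ≤ k → k ≤ k₁ → (∀ i, |h i| ≤ H) → ‖l‖ ≤ A → ∀ x : E n,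
        exp (A * ‖x‖) * (1 + ∑ i, G2 (k * (inner ℝ (θ i) x - h i))) ^ m * W k θ h l x ≤ B x

/-- `INT0`: majorant for all `k ≥ 1` (no derivative factors) -/
def Stmt_INT0 : Prop :=
  ∀ (n : ℕ) (ι : Type) [Fintype ι] (θ : ι → E n), Span θ → ∀ (H A : ℝ),
    ∃ B : E n → ℝ, Integrable B ∧
      ∀ (k : ℝ) (h : ι → ℝ) (l : E n), 1 ≤ k → (∀ i, |h i| ≤ H) → ‖l‖ ≤ A → ∀ x : E n, W k θ h l x ≤ B x

/-- `VD`: smoothness and derivatives of the soft potential -/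
def Stmt_VD : Prop :=
  ∀ (n : ℕ) (ι : Type) [Fintype ι] (k : ℝ) (θ : ι → E n) (h : ι → ℝ) (l : E n),
    ContDiff ℝ 2 (Vpot k θ h l) ∧
    (∀ j x, pd j (Vpot k θ h l) x = ∑ i, k * G1 (k * (inner ℝ (θ i) x - h i)) * θ i j - l j) ∧
    (∀ i' j x, pd i' (pd j (Vpot k θ h l)) x
      = ∑ i, k ^ 2 * G2 (k * (inner ℝ (θ i) x - h i)) * θ i i' * θ i j)

/-- `S = sum k G1(k s_i) (θ_i . x)` -/
noncomputable def Sx {n : ℕ} {ι : Type} [Fintype ι] (k : ℝ) (θ : ι → E n) (h : ι → ℝ) (x : E n) : ℝ :=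
  ∑ i, k * G1 (k * (inner ℝ (θ i) x - h i)) * inner ℝ (θ i) x

/-- `TRC`: the trace inequality -/
def Stmt_TRC : Prop :=
  ∀ (n : ℕ) (ι : Type) [Fintype ι] (k : ℝ) (θ : ι → E n) (h : ι → ℝ) (l : E n), 0 < k → Span θ →
    ∀ (u : E n → ℝ) (a : Fin n → ℝ) (β : ℝ), Test u → 0 < β →
      ∫ x, (∑ j, (pd j u x - a j) ^ 2) * Sx k θ h x * W k θ h l x
        ≤ (∫ x, ((n : ℝ) + inner ℝ l x + ‖x‖ ^ 2 / β) * (∑ j, (pd j u x - a j) ^ 2) * W k θ h l x)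
          + β * (∫ x, hs u x * W k θ h l x)

/-- `TAIL`: outside `(41/40) P` the function `S` is large -/
def Stmt_TAIL : Prop :=
  ∀ (n : ℕ) (ι : Type) [Fintype ι] (k : ℝ) (θ : ι → E n) (h : ι → ℝ) (l : E n) (hm R : ℝ), 1 ≤ n →
    0 < hm → 0 < R → (∀ i, hm ≤ h i) → 1000 * n ≤ k * hm →
    (∀ x ∈ Pset θ h, ‖x‖ ≤ R) → (∀ x ∈ Pset θ h, inner ℝ l x ≤ n) →
    (∀ x, (∀ i, inner ℝ (θ i) x ≤ 41 / 40 * h i) →
      (n : ℝ) + inner ℝ l x + ‖x‖ ^ 2 / (13 / 10 * R ^ 2) ≤ 81 / 40 * n + 81 / 100) ∧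
    (∀ x, (¬ ∀ i, inner ℝ (θ i) x ≤ 41 / 40 * h i) →
      20 * ((n : ℝ) + inner ℝ l x + ‖x‖ ^ 2 / (13 / 10 * R ^ 2) + 1000 * n) ≤ Sx k θ h x)

/-- `POI`: Poincare inequality for soft polytopes -/
def Stmt_POI : Prop :=
  ∀ (n : ℕ) (ι : Type) [Fintype ι] (k : ℝ) (θ : ι → E n) (h : ι → ℝ) (l : E n) (hm R : ℝ), 1 ≤ n → Span θ →
    0 < k → 0 < hm → 0 < R → (∀ i, hm ≤ h i) → 1000 * n ≤ k * hm →
    (∀ x ∈ Pset θ h, ‖x‖ ≤ R) → (∀ x ∈ Pset θ h, inner ℝ l x ≤ n) →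
    ∀ u : E n → ℝ, Test u → ∃ a : Fin n → ℝ,
      ∫ x, (∑ j, (pd j u x - a j) ^ 2) * W k θ h l x ≤ 17 / 10 * R ^ 2 * ∫ x, hs u x * W k θ h l x

/-- `TRB`: trace bound -/
def Stmt_TRB : Prop :=
  ∀ (n : ℕ) (ι : Type) [Fintype ι] (k : ℝ) (θ : ι → E n) (h : ι → ℝ) (l : E n) (hm R : ℝ), 1 ≤ n → Span θ →
    0 < k → 0 < hm → 0 < R → (∀ i, hm ≤ h i) → 1000 * n ≤ k * hm →
    (∀ x ∈ Pset θ h, ‖x‖ ≤ R) → (∀ x ∈ Pset θ h, inner ℝ l x ≤ n) →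
    ∃ C : ℝ, ∀ u : E n → ℝ, Test u →
      ∫ x, (∑ j, (pd j u x) ^ 2) * Sx k θ h x * W k θ h l x
        ≤ (3.63 * n + 2.82) * R ^ 2 * (∫ x, hs u x * W k θ h l x)
          + C * ∑ j, (∫ x, pd j u x * W k θ h l x) ^ 2

/-- the derivative of the exponent along a path with `h' = f`, `l' = η` -/
noncomputable def Yf {n : ℕ} {ι : Type} [Fintype ι] (k : ℝ) (θ : ι → E n) (h f : ι → ℝ) (η : E n)
    (x : E n) : ℝ :=
  inner ℝ η x + ∑ i, k * G1 (k * (inner ℝ (θ i) x - h i)) * f i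

/-- second derivative of `log J` along the path -/
noncomputable def LI {n : ℕ} {ι : Type} [Fintype ι] (p k : ℝ) (θ : ι → E n) (h : ι → ℝ) (l : E n)
    (f : ι → ℝ) (η : E n) : ℝ :=
  (∫ x, ((Yf k θ h f η x - mean (Vpot k θ h l) (Yf k θ h f η)) ^ 2
      - ∑ i, k ^ 2 * G2 (k * (inner ℝ (θ i) x - h i)) * f i ^ 2
      + (1 - p) * ∑ i, k * G1 (k * (inner ℝ (θ i) x - h i)) * (f i ^ 2 / h i)) * W k θ h l x)
    / ∫ x, W k θ h l x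

/-- `ETA`: the tilt derivative can be chosen so that `Cov(x,Y) = 0` -/
def Stmt_ETA : Prop :=
  ∀ (n : ℕ) (ι : Type) [Fintype ι] (k : ℝ) (θ : ι → E n) (h : ι → ℝ) (l : E n), 0 < k → Span θ →
    ∀ f : ι → ℝ, ∃ η : E n, ∀ j : Fin n,
      ∫ x : E n, x j * (Yf k θ h f η x - mean (Vpot k θ h l) (Yf k θ h f η)) * W k θ h l x = 0

/-- `LOC`: local inequality, normalised position -/
def Stmt_LOC : Prop :=
  ∀ (n : ℕ) (ι : Type) [Fintype ι] (p k : ℝ) (θ : ι → E n) (h : ι → ℝ) (l : E n) (hm r R : ℝ), 1 ≤ n → Span θ →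
    p < 1 → 0 < k → 0 < hm → 0 < r → 0 < R → (∀ i, hm ≤ h i) → 1000 * n ≤ k * hm →
    (1 - p) * (3.82 * n + 2.97) * R ^ 2 ≤ r ^ 2 → (1 - p) ≤ 1 →
    (∀ i, r * ‖θ i‖ ≤ h i) → (∀ x ∈ Pset θ h, ‖x‖ ≤ R) → (∀ x ∈ Pset θ h, inner ℝ l x ≤ n) →
    ∀ (f : ι → ℝ) (ε : ℝ), 0 < ε → ∃ η : E n, LI p k θ h l f η ≤ ε

/-- `TLT`: a centring tilt satisfies `l . x ≤ n` on the polytope -/
def Stmt_TLT : Prop :=
  ∀ (n : ℕ) (ι : Type) [Fintype ι] (k : ℝ) (θ : ι → E n) (h : ι → ℝ) (l : E n), 0 < k → Span θ →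
    (∀ i, 0 < h i) → (∀ j : Fin n, ∫ x : E n, x j * W k θ h l x = 0) →
    ∀ x ∈ Pset θ h, inner ℝ l x ≤ n

/-- `JOH`: normalisation (John ellipsoid of `K ∩ -K`) -/
def Stmt_JOH : Prop :=
  ∀ (n : ℕ) (K : Set (E n)), 1 ≤ n → Convex ℝ K → IsCompact K → (0 : E n) ∈ interior K →
    (∀ x ∈ K, -((1 / (n : ℝ)) • x) ∈ K) →
    ∃ A : E n ≃L[ℝ] E n, (∀ x ∈ K, ‖A x‖ ^ 2 ≤ (n : ℝ) ^ 3) ∧ (∀ y : E n, ‖y‖ ≤ 1 → A.symm y ∈ K)

/-- `CHG`: linear change of variables -/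
def Stmt_CHG : Prop :=
  ∀ (n : ℕ) (ι : Type) [Fintype ι] (p k : ℝ) (θ θ' : ι → E n) (h : ι → ℝ) (l l' : E n) (A : E n ≃L[ℝ] E n),
    (∀ i x, inner ℝ (θ' i) (A x) = inner ℝ (θ i) x) → (∀ x, inner ℝ l' (A x) = inner ℝ l x) →
    ∀ (f : ι → ℝ) (η η' : E n), (∀ x, inner ℝ η' (A x) = inner ℝ η x) →
      LI p k θ' h l' f η' = LI p k θ h l f η

/-- `LIN`: local inequality -/
def Stmt_LIN : Prop :=
  ∀ (n : ℕ) (ι : Type) [Fintype ι] (p k : ℝ) (θ : ι → E n) (h : ι → ℝ) (l : E n) (hm : ℝ), 2 ≤ n → Span θ →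
    p < 1 → (1 - p) * (11 * (n : ℝ) ^ 4) ≤ 2 → 0 < k → 0 < hm → (∀ i, hm ≤ h i) → 1000 * n ≤ k * hm →
    (∀ x ∈ Pset θ h, -((1 / (n : ℝ)) • x) ∈ Pset θ h) →
    (∀ j : Fin n, ∫ x : E n, x j * W k θ h l x = 0) →
    ∀ (f : ι → ℝ) (ε : ℝ), 0 < ε → ∃ η : E n, LI p k θ h l f η ≤ ε

/-! ### Part C: the path -/

/-- `J` -/
noncomputable def J {n : ℕ} {ι : Type} [Fintype ι] (k : ℝ) (θ : ι → E n) (h : ι → ℝ) (l : E n) : ℝ :=
  ∫ x, W k θ h l x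

/-- `DIF`: derivatives of `J` along a curve -/
def Stmt_DIF : Prop :=
  ∀ (n : ℕ) (ι : Type) [Fintype ι] (k : ℝ) (θ : ι → E n), 0 < k → Span θ →
    ∀ (h h1 h2 : ℝ → ι → ℝ) (l η : E n) (s0 : ℝ), 0 < s0 →
      (∀ s, |s| < s0 → ∀ i, HasDerivAt (fun s => h s i) (h1 s i) s) →
      (∀ s, |s| < s0 → ∀ i, HasDerivAt (fun s => h1 s i) (h2 s i) s) →
      (∀ i, ContinuousOn (fun s => h2 s i) (Set.Ioo (-s0) s0)) →
      ∃ I1 : ℝ → ℝ,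
        (∀ s, |s| < s0 → HasDerivAt (fun s => J k θ (h s) (l + s • η)) (I1 s) s) ∧
        I1 0 = ∫ x, Yf k θ (h 0) (h1 0) η x * W k θ (h 0) l x ∧
        HasDerivAt I1 (∫ x, ((Yf k θ (h 0) (h1 0) η x) ^ 2
          - ∑ i, k ^ 2 * G2 (k * (inner ℝ (θ i) x - h 0 i)) * (h1 0 i) ^ 2
          + ∑ i, k * G1 (k * (inner ℝ (θ i) x - h 0 i)) * h2 0 i) * W k θ (h 0) l x) 0

/-- `MIN`: existence of minimisers -/
def Stmt_MIN : Prop :=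
  ∀ (n : ℕ) (ι : Type) [Fintype ι] (k : ℝ) (θ : ι → E n), 0 < k → Span θ →
    ∀ (h : ℝ → ι → ℝ) (c : ℝ → ℝ), (∀ i, ContinuousOn (fun t => h t i) (Set.Icc 0 1)) →
      (∀ t ∈ Set.Icc (0 : ℝ) 1, ∀ i, 0 < h t i) → ContinuousOn c (Set.Icc 0 1) →
      ∃ t0 ∈ Set.Icc (0 : ℝ) 1, ∃ l0 : E n, ∀ t ∈ Set.Icc (0 : ℝ) 1, ∀ l : E n,
        log (J k θ (h t0) l0) + c t0 ≤ log (J k θ (h t) l) + c t

/-- `L_p` means -/
noncomputable def mp (p t a b : ℝ) : ℝ := ((1 - t) * a ^ p + t * b ^ p) ^ (1 / p)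

/-- the `L_p` path of support numbers -/
noncomputable def ht {ι : Type} (p : ℝ) (a b : ι → ℝ) (t : ℝ) : ι → ℝ := fun i => mp p t (a i) (b i)

/-- `PTH`: from the local inequality to the global one, soft level -/
def Stmt_PTH : Prop :=
  ∀ (n : ℕ) (ι : Type) [Fintype ι] (p k : ℝ) (θ : ι → E n) (a b : ι → ℝ) (A0 A1 : ℝ), 0 < p → p < 1 → 0 < k →
    Span θ → (∀ i, 0 < a i) → (∀ i, 0 < b i) →
    (∀ l : E n, A0 ≤ log (J k θ a l)) → (∀ l : E n, A1 ≤ log (J k θ b l)) →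
    (∀ t ∈ Set.Ioo (0 : ℝ) 1, ∀ l : E n, (∀ j : Fin n, ∫ x : E n, x j * W k θ (ht p a b t) l x = 0) →
      ∀ (f : ι → ℝ) (ε : ℝ), 0 < ε → ∃ η : E n, LI p k θ (ht p a b t) l f η ≤ ε) →
    ∀ t ∈ Set.Icc (0 : ℝ) 1, ∀ l : E n, (1 - t) * A0 + t * A1 ≤ log (J k θ (ht p a b t) l)

/-- `LIM`: the limit of hard walls -/
def Stmt_LIM : Prop :=
  ∀ (n : ℕ) (ι : Type) [Fintype ι] (θ : ι → E n) (h : ι → ℝ), Span θ → (∀ i, 0 < h i) → (∀ i, θ i ≠ 0) →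
    Tendsto (fun k : ℕ => J (k : ℝ) θ h 0) atTop (𝓝 (volume (Pset θ h)).toReal)

/-- `POL`: the inequality for finitely many directions -/
def Stmt_POL : Prop :=
  ∀ (n : ℕ) (ι : Type) [Fintype ι] (p : ℝ) (θ : ι → E n) (σ : ι → ι) (a b : ι → ℝ) (K C : Set (E n)), 2 ≤ n →
    0 < p → p < 1 → (1 - p) * (11 * (n : ℝ) ^ 4) ≤ 2 → Span θ → (∀ i, θ i ≠ 0) → (∀ i, θ (σ i) = -θ i) →
    (∀ i, 0 < a i) → (∀ i, 0 < b i) → (∀ i, a (σ i) ≤ n * a i) → (∀ i, b (σ i) ≤ n * b i) →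
    MeasurableSet K → MeasurableSet C → K ⊆ Pset θ a → C ⊆ Pset θ b →
    0 < volume K → 0 < volume C → (∫ x in K, x) = 0 → (∫ x in C, x) = 0 →
    ∀ t ∈ Set.Icc (0 : ℝ) 1,
      (volume K).toReal ^ (1 - t) * (volume C).toReal ^ t ≤ (volume (Pset θ (ht p a b t))).toReal

/-! ### Part D: general convex bodies -/

/-- support function -/
noncomputable def supp {n : ℕ} (K : Set (E n)) (u : E n) : ℝ := sSup ((fun y : E n => inner ℝ y u) '' K)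

/-- Wulff set of a function on the sphere -/
def Wulff {n : ℕ} (M : E n → ℝ) : Set (E n) :=
  {x | ∀ u ∈ Metric.sphere (0 : E n) 1, inner ℝ x u ≤ M u}

/-- centred convex body -/
def CBody {n : ℕ} (K : Set (E n)) : Prop :=
  Convex ℝ K ∧ IsCompact K ∧ (interior K).Nonempty ∧ (∫ x in K, x) = 0

/-- `CEN`: facts on centred bodies -/
def Stmt_CEN : Prop :=
  ∀ (n : ℕ) (K : Set (E n)), 1 ≤ n → CBody K →
    (0 : E n) ∈ interior K ∧ (∀ u : E n, u ≠ 0 → 0 < supp K u) ∧ Continuous (supp K) ∧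
    (∀ u : E n, supp K (-u) ≤ n * supp K u) ∧ (∀ u : E n, ∀ x ∈ K, inner ℝ x u ≤ supp K u) ∧
    (∀ x : E n, (∀ u ∈ Metric.sphere (0 : E n) 1, inner ℝ x u ≤ supp K u) → x ∈ K)

/-- `WUL`: approximation of Wulff sets by finitely many directions -/
def Stmt_WUL : Prop :=
  ∀ (n : ℕ) (M : E n → ℝ) (c : ℝ), 1 ≤ n → ContinuousOn M (Metric.sphere (0 : E n) 1) →
    (∀ u ∈ Metric.sphere (0 : E n) 1, 0 < M u) →
    (∀ (N : ℕ) (θ : Fin N → E n) (σ : Fin N → Fin N), (∀ i, θ i ∈ Metric.sphere (0 : E n) 1) →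
      (∀ i, θ (σ i) = -θ i) → Span θ → c ≤ (volume (Pset θ (fun i => M (θ i)))).toReal) →
    c ≤ (volume (Wulff M)).toReal

/-- `GEN`: logarithmic form for centred bodies -/
def Stmt_GEN : Prop :=
  ∀ (n : ℕ) (p : ℝ) (K C : Set (E n)), 2 ≤ n → 0 < p → p < 1 → (1 - p) * (11 * (n : ℝ) ^ 4) ≤ 2 →
    CBody K → CBody C → ∀ t ∈ Set.Icc (0 : ℝ) 1,
      (volume K).toReal ^ (1 - t) * (volume C).toReal ^ t
        ≤ (volume (Wulff (fun u => mp p t (supp K u) (supp C u)))).toReal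

/-- `EQL`: the case of equality for equal volumes -/
def Stmt_EQL : Prop :=
  ∀ (n : ℕ) (p : ℝ) (K C : Set (E n)), 2 ≤ n → 0 < p → p < 1 → (1 - p) * (6 * (n : ℝ) ^ 4) ≤ 1 →
    CBody K → CBody C → (volume K).toReal = (volume C).toReal → ∀ t ∈ Set.Ioo (0 : ℝ) 1,
      (volume (Wulff (fun u => mp p t (supp K u) (supp C u)))).toReal = (volume K).toReal → K = C

/-- `FIN`: the theorem -/
def Stmt_FIN : Prop :=
  ∀ (n : ℕ), 2 ≤ n → ∀ (p : ℝ), 0 < p → p < 1 → (1 - p) * (6 * (n : ℝ) ^ 4) ≤ 1 →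
  ∀ (K C : Set (EuclideanSpace ℝ (Fin n))),
    Convex ℝ K → IsCompact K → (interior K).Nonempty →
    Convex ℝ C → IsCompact C → (interior C).Nonempty →
    (∫ x in K, x) = 0 → (∫ x in C, x) = 0 →
    ∀ (α β : ℝ), 0 < α → 0 < β →
      (α * (volume K).toReal ^ (p / (n : ℝ)) + β * (volume C).toReal ^ (p / (n : ℝ))
        ≤ (volume {x : EuclideanSpace ℝ (Fin n) |
              ∀ u ∈ Metric.sphere (0 : EuclideanSpace ℝ (Fin n)) 1,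
                inner ℝ x u ≤ (α * (sSup ((fun y : EuclideanSpace ℝ (Fin n) => inner ℝ y u) '' K)) ^ p
                    + β * (sSup ((fun y : EuclideanSpace ℝ (Fin n) => inner ℝ y u) '' C)) ^ p) ^ (1 / p)}).toReal ^ (p / (n : ℝ)))
      ∧ ((volume {x : EuclideanSpace ℝ (Fin n) |
              ∀ u ∈ Metric.sphere (0 : EuclideanSpace ℝ (Fin n)) 1,
                inner ℝ x u ≤ (α * (sSup ((fun y : EuclideanSpace ℝ (Fin n) => inner ℝ y u) '' K)) ^ p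
                    + β * (sSup ((fun y : EuclideanSpace ℝ (Fin n) => inner ℝ y u) '' C)) ^ p) ^ (1 / p)}).toReal ^ (p / (n : ℝ))
          = α * (volume K).toReal ^ (p / (n : ℝ)) + β * (volume C).toReal ^ (p / (n : ℝ))
        ↔ ∃ t : ℝ, 0 < t ∧ C = (fun x : EuclideanSpace ℝ (Fin n) => t • x) '' K)

end Pool.Agent.Work.LPBM
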